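import Pool.Agent.Helper18.PB.Defs

/-!
# Packet F2 (MP_b9cb57_an): the space with the norm `max |⟨b_i, x⟩| + ∑ c_k |⟨a_k, x⟩|`
-/

set_option autoImplicit false

open Pool.Agent.Helper18.PB

namespace Pool.Agent.Helper84.PB

section
variable {n M : ℕ} {a : ℕ → EuclideanSpace ℝ (Fin n)} {c : ℕ → ℝ}
  {b : Fin M → EuclideanSpace ℝ (Fin n)}

theorem sm (hc : ∀ k, 0 < c k) (hs : Summable (fun k => c k * ‖a k‖))
    (x : EuclideanSpace ℝ (Fin n)) : Summable (fun k => c k * |inner ℝ (a k) x|) := by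
  refine Summable.of_nonneg_of_le (fun k => mul_nonneg (hc k).le (abs_nonneg _)) (fun k => ?_)
    (hs.mul_right ‖x‖)
  rw [mul_assoc]
  exact mul_le_mul_of_nonneg_left (abs_real_inner_le_norm _ _) (hc k).le

theorem nrm_nonneg (hc : ∀ k, 0 < c k) (x : EuclideanSpace ℝ (Fin n)) : 0 ≤ nrm a c b x := by
  unfold nrm
  exact add_nonneg (norm_nonneg _) (tsum_nonneg fun k => mul_nonneg (hc k).le (abs_nonneg _))

theorem nrm_smul (t : ℝ) (x : EuclideanSpace ℝ (Fin n)) :
    nrm a c b (t • x) = ‖t‖ * nrm a c b x := by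
  unfold nrm
  have h1 : (fun i : Fin M => (inner ℝ (b i) (t • x) : ℝ))
      = t • (fun i : Fin M => (inner ℝ (b i) x : ℝ)) := by
    funext i
    simp only [Pi.smul_apply, smul_eq_mul]
    exact real_inner_smul_right _ _ _
  have h2 : (fun k => c k * |inner ℝ (a k) (t • x)|)
      = (fun k => ‖t‖ * (c k * |inner ℝ (a k) x|)) := by
    funext k
    rw [real_inner_smul_right, abs_mul, Real.norm_eq_abs]
    ring
  rw [h1, norm_smul, h2, tsum_mul_left]
  ring

theorem nrm_add (hc : ∀ k, 0 < c k) (hs : Summable (fun k => c k * ‖a k‖))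
    (x y : EuclideanSpace ℝ (Fin n)) : nrm a c b (x + y) ≤ nrm a c b x + nrm a c b y := by
  unfold nrm
  have h1 : (fun i : Fin M => (inner ℝ (b i) (x + y) : ℝ))
      = (fun i : Fin M => (inner ℝ (b i) x : ℝ)) + (fun i : Fin M => (inner ℝ (b i) y : ℝ)) := by
    funext i
    simp only [Pi.add_apply]
    exact inner_add_right _ _ _
  have h2 := norm_add_le (fun i : Fin M => (inner ℝ (b i) x : ℝ))
    (fun i : Fin M => (inner ℝ (b i) y : ℝ))
  rw [← h1] at h2
  have h3 : ∑' k, c k * |inner ℝ (a k) (x + y)|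
      ≤ ∑' k, (c k * |inner ℝ (a k) x| + c k * |inner ℝ (a k) y|) := by
    refine Summable.tsum_le_tsum (fun k => ?_) (sm hc hs _) ((sm hc hs x).add (sm hc hs y))
    rw [← mul_add, inner_add_right]
    exact mul_le_mul_of_nonneg_left (abs_add_le _ _) (hc k).le
  rw [Summable.tsum_add (sm hc hs x) (sm hc hs y)] at h3
  linarith

theorem nrm_eq_zero (hc : ∀ k, 0 < c k) (hd : DenseRange a)
    (hs : Summable (fun k => c k * ‖a k‖)) (x : EuclideanSpace ℝ (Fin n)) :
    nrm a c b x = 0 ↔ x = 0 := by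
  constructor
  · intro h
    unfold nrm at h
    have h1 : 0 ≤ ‖(fun i : Fin M => (inner ℝ (b i) x : ℝ))‖ := norm_nonneg _
    have h2 : 0 ≤ ∑' k, c k * |inner ℝ (a k) x| :=
      tsum_nonneg fun k => mul_nonneg (hc k).le (abs_nonneg _)
    have h3 : ∑' k, c k * |inner ℝ (a k) x| = 0 := by linarith
    have h4 : ∀ k, inner ℝ (a k) x = 0 := by
      intro k
      have h5 := (hasSum_zero_iff_of_nonneg
        (fun k => mul_nonneg (hc k).le (abs_nonneg (inner ℝ (a k) x)))).mp
        (h3 ▸ (sm hc hs x).hasSum)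
      have h6 := congrFun h5 k
      simp only [Pi.zero_apply, mul_eq_zero, abs_eq_zero] at h6
      exact h6.resolve_left (hc k).ne'
    have h5 : ∀ y : EuclideanSpace ℝ (Fin n), inner ℝ y x = 0 := by
      intro y
      have hcl : IsClosed {y : EuclideanSpace ℝ (Fin n) | inner ℝ y x = 0} :=
        isClosed_eq (continuous_id.inner continuous_const) continuous_const
      exact hd.induction_on y hcl h4
    exact inner_self_eq_zero.mp (h5 x)
  · rintro rfl
    have := nrm_smul (a := a) (c := c) (b := b) 0 0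
    rwa [zero_smul, norm_zero, zero_mul] at this

end

/-- type synonym -/
def YY (n : ℕ) : Type := EuclideanSpace ℝ (Fin n)

instance (n : ℕ) : AddCommGroup (YY n) := inferInstanceAs (AddCommGroup (EuclideanSpace ℝ (Fin n)))

instance (n : ℕ) : Module ℝ (YY n) := inferInstanceAs (Module ℝ (EuclideanSpace ℝ (Fin n)))

theorem f2 : GEx := by
  intro n M a c b hc hd hs
  let N : Norm (YY n) := ⟨fun x => nrm a c b x⟩
  have core : NormedSpace.Core ℝ (YY n) :=
    { norm_nonneg := fun x => nrm_nonneg hc x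
      norm_smul := fun t x => nrm_smul t x
      norm_triangle := fun x y => nrm_add hc hs x y
      norm_eq_zero_iff := fun x => nrm_eq_zero hc hd hs x }
  let i1 : NormedAddCommGroup (YY n) := NormedAddCommGroup.ofCore core
  let i2 : NormedSpace ℝ (YY n) := NormedSpace.ofCore core
  exact ⟨YY n, i1, i2, LinearEquiv.refl ℝ (EuclideanSpace ℝ (Fin n)), fun x => rfl⟩

end Pool.Agent.Helper84.PB
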